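import Pool.Agent.Helper3.SFP.Final

/-!
# Weighted distances and explosion times in scale-free percolation (MP_3c35f6_pr, Q1)

In scale-free percolation on `ℤ^d` with i.i.d. edge-weights, in the explosive regime, almost surely
`d_L(x, y) ≤ V_x + V_y` for all vertices `x, y`.
-/

namespace Pool.Agent.Results.MP_3c35f6_pr.ExplosionBound

open Pool.Agent.Helper3.SFP
open Filter MeasureTheory Set ProbabilityTheory
open scoped Topology ENNReal

/-- **Q1 holds.**  Scale-free percolation on `ℤ^d` with `d ≥ 1`, `α > 0`, `lam > 0`, `τ > 1` and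
`γ = α (τ - 1) / d < 2` (in particular the regime `α > d`, `γ ∈ (1, 2)` of the problem), with
i.i.d. nonnegative edge-weights satisfying `I(L) < ∞`.
Almost surely, for all vertices `x, y`,
`d_L(x, y) ≤ V_x + V_y`, where `V_x` is the explosion time of `x`, i.e. the infimum of the times
`t` at which the ball `B_t^L(x)` is infinite; and also
`d_L(x, y) ≤ liminf τ_n(x) + liminf τ_n(y)` with `τ_n(x) = inf {t : |B_t^L(x)| = n}`, so that
`d_L(x, y) ≤ V_x + V_y` holds as well with `V_x` the limit of `τ_n(x)`. -/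
theorem result {d : ℕ} (hd : 1 ≤ d) {α lam τ : ℝ} (hα : 0 < α) (hlam : 0 < lam)
    (hτ : 1 < τ) (hγ2 : α * (τ - 1) / d < 2)
    {Ω : Type*} [MeasurableSpace Ω] (P : Measure Ω) [IsProbabilityMeasure P]
    (W : (Fin d → ℤ) → Ω → ℝ) (U L : Sym2 (Fin d → ℤ) → Ω → ℝ) (μW μL : Measure ℝ)
    (hM : Model d τ P W U L μW μL) :
    ∀ᵐ ω ∂P, ∀ x y : Fin d → ℤ,
      fpDist (sfpGraph α lam (fun z => W z ω) (fun e => U e ω)) (fun e => L e ω) x y ≤
          explosionTime (sfpGraph α lam (fun z => W z ω) (fun e => U e ω)) (fun e => L e ω) x +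
          explosionTime (sfpGraph α lam (fun z => W z ω) (fun e => U e ω)) (fun e => L e ω) y ∧
      fpDist (sfpGraph α lam (fun z => W z ω) (fun e => U e ω)) (fun e => L e ω) x y ≤
          liminf (fun n =>
            hitTime (sfpGraph α lam (fun z => W z ω) (fun e => U e ω)) (fun e => L e ω) x n) atTop +
          liminf (fun n =>
            hitTime (sfpGraph α lam (fun z => W z ω) (fun e => U e ω)) (fun e => L e ω) y n)
              atTop := by
  have hd0 : (0 : ℝ) < d := by exact_mod_cast hd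
  have hα0 : 0 < α := hα
  have hF : Fam P W U L μW μL := ⟨hM.measurable_W, hM.measurable_U, hM.measurable_L, hM.indep,
    hM.law_W, hM.law_U, hM.law_L⟩
  have hpW : IsProbabilityMeasure μW := by
    rw [← hM.law_W 0]
    exact Measure.isProbabilityMeasure_map (hM.measurable_W 0).aemeasurable
  have hpL : IsProbabilityMeasure μL := by
    rw [← hM.law_L s(0, 0)]
    exact Measure.isProbabilityMeasure_map (hM.measurable_L _).aemeasurable
  obtain ⟨ℓ, hslow, htail⟩ := hM.tail_W
  have hγ : α * (τ - 1) < 2 * d := by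
    rwa [div_lt_iff₀ hd0] at hγ2
  obtain ⟨Sc⟩ := exists_scales (β := τ - 1) hd hα0 hlam (by linarith) hγ
    (q := fun t => μW.real (Ici t)) (fun β' hβ' => tail_lower hτ hslow htail β' hβ')
    hM.nonneg_L hM.explosive
  have hLpos : ∀ ε > 0, 0 < cdf μL ε := fun ε hε => cdf_pos_of_integral hM.explosive hε
  have hW1 : ∀ᵐ ω ∂P, ∀ v, 1 ≤ W v ω := by
    rw [ae_all_iff]
    intro v
    have h := hM.one_le_W
    rw [← hM.law_W v, Measure.map_apply (hM.measurable_W v) measurableSet_Iio] at h
    filter_upwards [measure_eq_zero_iff_ae_notMem.1 h] with ω hω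
    exact not_lt.1 hω
  have hglue : ∀ᵐ ω ∂P, ∀ᶠ k in atTop,
      levelOK Sc (fullSys d Sc.n Sc.n_mono) W U L k ω := by
    apply ae_eventually_levelOK Sc hF
    · intro k
      exact (card_bigBox (Sc.n k)).le
    · intro k
      exact card_cube 0 1 (Sc.n k)
  have hreach : ∀ᵐ ω ∂P, ∀ x : Fin d → ℤ, ∀ q : ℚ, ∀ m : ℕ,
      ω ∈ exitAll α lam W U L x (ENNReal.ofReal q) →
        ReachTo Sc W U L ω x (ENNReal.ofReal q + ENNReal.ofReal (1 / ((m : ℝ) + 1))) := by
    rw [ae_all_iff]; intro x
    rw [ae_all_iff]; intro q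
    rw [ae_all_iff]; intro m
    exact exitAll_reach Sc hF hd hα0 hlam hLpos hW1 x _ (by positivity)
  filter_upwards [hglue, hreach] with ω h1 h2 x y
  set G := sfpGraph α lam (fun z => W z ω) (fun e => U e ω) with hG
  have hmain : fpDist G (fun e => L e ω) x y ≤
      explosionTime G (fun e => L e ω) x + explosionTime G (fun e => L e ω) y := by
    -- the bound with `t`, `s` larger than the explosion times
    have hstep : ∀ t s : ℝ≥0∞, explosionTime G (fun e => L e ω) x < t →
        explosionTime G (fun e => L e ω) y < s → fpDist G (fun e => L e ω) x y ≤ t + s := by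
      intro t s ht hs
      obtain ⟨q1, -, hq1, hq1'⟩ := ENNReal.lt_iff_exists_rat_btwn.1 ht
      obtain ⟨q2, -, hq2, hq2'⟩ := ENNReal.lt_iff_exists_rat_btwn.1 hs
      have hx : ω ∈ exitAll α lam W U L x (ENNReal.ofReal q1) := mem_exitAll ω x hq1
      have hy : ω ∈ exitAll α lam W U L y (ENNReal.ofReal q2) := mem_exitAll ω y hq2
      have hall : ∀ m : ℕ, fpDist G (fun e => L e ω) x y ≤
          (ENNReal.ofReal q1 + ENNReal.ofReal (1 / ((m : ℝ) + 1))) +
          (ENNReal.ofReal q2 + ENNReal.ofReal (1 / ((m : ℝ) + 1))) := by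
        intro m
        rw [fpDist_eq_rd]
        exact glue Sc hα0 hlam h1 (h2 x q1 m hx) (h2 y q2 m hy)
      have hz : Tendsto (fun m : ℕ => ENNReal.ofReal (1 / ((m : ℝ) + 1))) atTop (𝓝 0) := by
        have := ENNReal.tendsto_ofReal (tendsto_one_div_add_atTop_nhds_zero_nat (𝕜 := ℝ))
        simpa using this
      have hlim : Tendsto (fun m : ℕ => (ENNReal.ofReal q1 + ENNReal.ofReal (1 / ((m : ℝ) + 1))) +
          (ENNReal.ofReal q2 + ENNReal.ofReal (1 / ((m : ℝ) + 1)))) atTop
          (𝓝 ((ENNReal.ofReal q1 + 0) + (ENNReal.ofReal q2 + 0))) :=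
        (Tendsto.const_add _ hz).add (Tendsto.const_add _ hz)
      rw [add_zero, add_zero] at hlim
      refine (ge_of_tendsto hlim (Eventually.of_forall hall)).trans ?_
      exact add_le_add hq1'.le hq2'.le
    rcases eq_or_ne (explosionTime G (fun e => L e ω) x) ∞ with hx | hx
    · rw [hx, top_add]; exact le_top
    rcases eq_or_ne (explosionTime G (fun e => L e ω) y) ∞ with hy | hy
    · rw [hy, add_top]; exact le_top
    apply ENNReal.le_of_forall_pos_le_add
    intro ε hε _
    have hε2 : (0 : ℝ≥0∞) < (ε : ℝ≥0∞) / 2 := ENNReal.half_pos (by exact_mod_cast hε.ne')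
    refine (hstep _ _ (ENNReal.lt_add_right hx hε2.ne') (ENNReal.lt_add_right hy hε2.ne')).trans ?_
    apply le_of_eq
    calc explosionTime G (fun e => L e ω) x + (ε : ℝ≥0∞) / 2 +
        (explosionTime G (fun e => L e ω) y + (ε : ℝ≥0∞) / 2)
        = explosionTime G (fun e => L e ω) x + explosionTime G (fun e => L e ω) y +
          ((ε : ℝ≥0∞) / 2 + (ε : ℝ≥0∞) / 2) := by ring
      _ = _ := by rw [ENNReal.add_halves]
  exact ⟨hmain, hmain.trans (add_le_add (explosionTime_le_liminf G _ x)
    (explosionTime_le_liminf G _ y))⟩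

end Pool.Agent.Results.MP_3c35f6_pr.ExplosionBound
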